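import Pool.Agent.Helper2.M3.Y0

/-!
# Slices of a body in dimension `n + 1`, and the volume of the twin body in dimension three
-/

set_option autoImplicit false
set_option linter.unusedSectionVars false

open MeasureTheory Set Multiset Module
open scoped Pointwise NNReal ENNReal

noncomputable section

namespace Pool.Agent.Helper17.MB

open Pool.Agent.TH650.MV Pool.Agent.Helper2.Mah Pool.Agent.Helper2.M3
open W679AM H712MA Helper73.Twin

/-- Fubini, the height being integrated last -/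
theorem lintegral_cons' {n : ℕ} (F : (Fin (n + 1) → ℝ) → ℝ≥0∞) (hF : Measurable F) :
    ∫⁻ v, F v = ∫⁻ s : ℝ, ∫⁻ y : Fin n → ℝ, F (Fin.cons s y) := by
  have hmp := (volume_preserving_piFinSuccAbove (fun _ : Fin (n + 1) => ℝ) 0).symm
  have h1 := hmp.lintegral_comp_emb (MeasurableEquiv.measurableEmbedding _) F
  rw [← h1]
  have h2 : ∀ p : ℝ × (Fin n → ℝ),
      F ((MeasurableEquiv.piFinSuccAbove (fun _ : Fin (n + 1) => ℝ) 0).symm p) =
        F (Fin.cons p.1 p.2) := by
    intro p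
    congr 1
    simp [MeasurableEquiv.piFinSuccAbove, Fin.insertNthEquiv, Fin.insertNth_zero']
  rw [lintegral_congr h2]
  have hm : Measurable fun p : ℝ × (Fin n → ℝ) => F (Fin.cons p.1 p.2) :=
    hF.comp cons_cont.measurable
  exact lintegral_prod _ hm.aemeasurable

/-- the volume as the integral of the volumes of the slices -/
theorem volume_slices {n : ℕ} {S : Set (Fin (n + 1) → ℝ)} (hS : MeasurableSet S) :
    volume S = ∫⁻ s : ℝ, volume {y : Fin n → ℝ | (Fin.cons s y : Fin (n + 1) → ℝ) ∈ S} := by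
  have h := lintegral_cons' (S.indicator fun _ => (1 : ℝ≥0∞)) (measurable_const.indicator hS)
  rw [lintegral_indicator_const hS, one_mul] at h
  rw [h]
  refine lintegral_congr fun s => ?_
  have hm : MeasurableSet {y : Fin n → ℝ | (Fin.cons s y : Fin (n + 1) → ℝ) ∈ S} := by
    have hc : Measurable fun y : Fin n → ℝ => (Fin.cons s y : Fin (n + 1) → ℝ) :=
      (cons_cont.comp (by fun_prop : Continuous fun y : Fin n → ℝ => (s, y))).measurable
    exact hc hS
  rw [← lintegral_indicator_one hm]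
  refine lintegral_congr fun y => ?_
  by_cases hy : (Fin.cons s y : Fin (n + 1) → ℝ) ∈ S
  · rw [indicator_of_mem hy, indicator_of_mem (show y ∈ {y : Fin n → ℝ |
      (Fin.cons s y : Fin (n + 1) → ℝ) ∈ S} from hy)]; rfl
  · rw [indicator_of_notMem hy, indicator_of_notMem (show y ∉ {y : Fin n → ℝ |
      (Fin.cons s y : Fin (n + 1) → ℝ) ∈ S} from hy)]

theorem vol_body {n : ℕ} (B : ConvexBody (Fin n → ℝ)) :
    volume (B : Set (Fin n → ℝ)) = ENNReal.ofReal (vl volume B) := by
  unfold vl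
  rw [ENNReal.ofReal_toReal B.isCompact.measure_lt_top.ne]

/-- the slice of the twin body at the height `2t - 1` -/
theorem slice_twin {n : ℕ} (KB : ConvexBody (Fin n → ℝ)) {s : ℝ} (h0 : -1 ≤ s) (h1 : s ≤ 1) :
    {y : Fin n → ℝ | (Fin.cons s y : Fin (n + 1) → ℝ) ∈ twin (KB : Set (Fin n → ℝ))} =
      ((((1 + s) / 2).toNNReal • KB + ((1 - s) / 2).toNNReal • ((-1 : ℝ) • KB) :
        ConvexBody (Fin n → ℝ)) : Set (Fin n → ℝ)) := by
  ext y
  rw [mem_ofPred_eq, mem_twin KB.convex KB.nonempty]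
  rw [ConvexBody.coe_add, ConvexBody.coe_smul', ConvexBody.coe_smul', ConvexBody.coe_smul]
  change _ ↔ y ∈ (((1 + s) / 2).toNNReal : ℝ) • (KB : Set (Fin n → ℝ)) +
    (((1 - s) / 2).toNNReal : ℝ) • ((-1 : ℝ) • (KB : Set (Fin n → ℝ)))
  rw [Real.coe_toNNReal _ (by linarith), Real.coe_toNNReal _ (by linarith)]
  constructor
  · rintro ⟨t, ⟨ht0, ht1⟩, a, ha, b, hb, h⟩
    have e0 : s = 2 * t - 1 := by
      have := congrFun h 0
      simpa using this
    have e1 : y = t • a - (1 - t) • b := by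
      funext i
      have := congrFun h i.succ
      simpa using this
    refine ⟨t • a, ⟨a, ha, by rw [e0]; ring_nf⟩, -((1 - t) • b), ⟨-b, ⟨b, hb, by simp⟩, ?_⟩,
      by rw [e1]; simp only [sub_eq_add_neg]⟩
    have e2 : (1 - s) / 2 = 1 - t := by rw [e0]; ring
    simp only [e2, smul_neg]
  · rintro ⟨_, ⟨a, ha, rfl⟩, _, ⟨_, ⟨b, hb, rfl⟩, rfl⟩, rfl⟩
    refine ⟨(1 + s) / 2, ⟨by linarith, by linarith⟩, a, ha, b, hb, ?_⟩
    congr 1
    · ring
    · have e2 : 1 - (1 + s) / 2 = (1 - s) / 2 := by ring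
      simp only [e2, neg_smul, one_smul, smul_neg, sub_eq_add_neg]

theorem slice_twin_empty {n : ℕ} (KB : ConvexBody (Fin n → ℝ)) {s : ℝ} (h : ¬ (-1 ≤ s ∧ s ≤ 1)) :
    {y : Fin n → ℝ | (Fin.cons s y : Fin (n + 1) → ℝ) ∈ twin (KB : Set (Fin n → ℝ))} = ∅ := by
  ext y
  rw [mem_ofPred_eq, mem_twin KB.convex KB.nonempty]
  simp only [mem_empty_iff_false, iff_false]
  rintro ⟨t, ⟨ht0, ht1⟩, a, ha, b, hb, h2⟩
  have e0 : s = 2 * t - 1 := by
    have := congrFun h2 0
    simpa using this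
  exact h ⟨by linarith, by linarith⟩

/-- the volume of `a K + b (-K)` in dimension three -/
theorem vl_comb {G : Type*} [NormedAddCommGroup G] [NormedSpace ℝ G] [FiniteDimensional ℝ G]
    [MeasurableSpace G] [BorelSpace G] (μ : Measure G) [μ.IsAddHaarMeasure]
    (h3 : finrank ℝ G = 3) (K : ConvexBody G) {v : ℝ}
    (hT : T μ K K ((-1 : ℝ) • K) = v * vl μ K) (a b : ℝ≥0) :
    vl μ (a • K + b • ((-1 : ℝ) • K)) =
      vl μ K * ((a : ℝ) ^ 3 + b ^ 3 + 3 * v * a * b * (a + b)) := by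
  set N : ConvexBody G := (-1 : ℝ) • K with hN
  have hNN : (-1 : ℝ) • N = K := neg_neg_body K
  have hKKK : T μ K K K = vl μ K := (vl3 μ h3 K).symm
  have hNNN : T μ N N N = vl μ K := by rw [hN, T_neg, hKKK]
  have hKNN : T μ K N N = v * vl μ K := by
    rw [← T_neg μ K N N, ← hN, hNN, T_13 μ N K K, hT]
  rw [vl3 μ h3]
  simp only [T_add1 μ h3, T_add2 μ h3, T_add3 μ h3, T_smul1 μ h3, T_smul2 μ h3, T_smul3 μ h3]
  rw [T_13 μ N K K, T_23 μ K N K, T_12 μ N K N, T_13 μ N N K, hKKK, hNNN, hKNN, hT]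
  ring

/-- A (volume of the twin body in dimension three) -/
theorem A {K : Set (Fin 3 → ℝ)} (hc : IsCompact K) (hv : Convex ℝ K) (hi : (interior K).Nonempty)
    (KB : ConvexBody (Fin 3 → ℝ)) (hKB : (KB : Set (Fin 3 → ℝ)) = K) {v : ℝ}
    (hT : T volume KB KB ((-1 : ℝ) • KB) = v * vl volume KB) :
    volume (twin K) = ENNReal.ofReal (1 + v) * volume K := by
  have hne : K.Nonempty := hi.mono interior_subset
  have h3 : finrank ℝ (Fin 3 → ℝ) = 3 := by simp
  rw [volume_slices (twin_compact hc hv hne).isClosed.measurableSet]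
  have hpos : 0 ≤ vl volume KB := vl_nonneg volume KB
  have hv0 : 0 ≤ v * vl volume KB := by
    rw [← hT]; exact T_nonneg volume h3 _ _ _
  have hsl : ∀ s : ℝ, volume {y : Fin 3 → ℝ | (Fin.cons s y : Fin (3 + 1) → ℝ) ∈ twin K} =
      (Icc (-1 : ℝ) 1).indicator (fun s => ENNReal.ofReal
        (vl volume KB * (1 + 3 * (v - 1) * ((1 - s ^ 2) / 4)))) s := by
    intro s
    rw [← hKB]
    by_cases hs : s ∈ Icc (-1 : ℝ) 1
    · rw [indicator_of_mem hs, slice_twin KB hs.1 hs.2, vol_body,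
        vl_comb volume h3 KB hT, Real.coe_toNNReal _ (by linarith [hs.1]),
        Real.coe_toNNReal _ (by linarith [hs.2])]
      congr 2
      ring
    · rw [indicator_of_notMem hs, slice_twin_empty KB hs, measure_empty]
  rw [lintegral_congr hsl, lintegral_indicator measurableSet_Icc]
  have hcont : Continuous fun s : ℝ =>
      vl volume KB * (1 + 3 * (v - 1) * ((1 - s ^ 2) / 4)) := by fun_prop
  rw [← ofReal_integral_eq_lintegral_ofReal]
  · rw [integral_Icc_eq_integral_Ioc, ← intervalIntegral.integral_of_le (by norm_num)]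
    have hint : ∫ s in (-1 : ℝ)..1, vl volume KB * (1 + 3 * (v - 1) * ((1 - s ^ 2) / 4)) =
        (1 + v) * vl volume KB := by
      have e : (fun s : ℝ => vl volume KB * (1 + 3 * (v - 1) * ((1 - s ^ 2) / 4))) =
          fun s => (vl volume KB * (1 + 3 * (v - 1) / 4)) - (vl volume KB * (3 * (v - 1) / 4)) *
            s ^ 2 := by funext s; ring
      rw [e, intervalIntegral.integral_sub (by simp) (by
        apply Continuous.intervalIntegrable; fun_prop), intervalIntegral.integral_const,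
        intervalIntegral.integral_const_mul, integral_pow]
      simp only [smul_eq_mul]
      norm_num
      ring
    rw [hint, ← hKB, vol_body, ← ENNReal.ofReal_mul' hpos]
  · exact (hcont.integrableOn_Icc)
  · refine (ae_restrict_iff' measurableSet_Icc).2 (ae_of_all _ fun s hs => ?_)
    show (0 : ℝ) ≤ vl volume KB * (1 + 3 * (v - 1) * ((1 - s ^ 2) / 4))
    have h1 : 0 ≤ 1 - s ^ 2 := by nlinarith [hs.1, hs.2]
    have h2 : 0 ≤ s ^ 2 := sq_nonneg s
    have e : vl volume KB * (1 + 3 * (v - 1) * ((1 - s ^ 2) / 4)) =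
        vl volume KB * (1 - 3 * ((1 - s ^ 2) / 4)) +
          3 * (v * vl volume KB) * ((1 - s ^ 2) / 4) := by ring
    rw [e]
    have h3 : 0 ≤ 1 - 3 * ((1 - s ^ 2) / 4) := by nlinarith
    positivity

end Pool.Agent.Helper17.MB

end
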