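import Pool.Agent.Helper17.MB.A
import Pool.Agent.Helper2.M3.Y1

/-!
# The volume of the section body in dimension three
-/

set_option autoImplicit false
set_option linter.unusedSectionVars false

open MeasureTheory Set Multiset Module
open scoped Pointwise NNReal ENNReal

noncomputable section

namespace Pool.Agent.Helper17.MB

open Pool.Agent.TH650.MV Pool.Agent.Helper2.Mah Pool.Agent.Helper2.M3
open W679AM H712MA Helper73.Twin

variable {n : ℕ}

theorem sec_compact {K : Set (Fin n → ℝ)} (hc : IsCompact K) : IsCompact (sec K) := by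
  have c1 : Continuous fun p : ℝ × (Fin n → ℝ) =>
      (Fin.cons p.1 ((1 - p.1) • p.2) : Fin (n + 1) → ℝ) :=
    cons_cont.comp (by fun_prop : Continuous fun p : ℝ × (Fin n → ℝ) =>
      (p.1, ((1 - p.1) • p.2 : Fin n → ℝ)))
  have c2 : Continuous fun p : ℝ × (Fin n → ℝ) =>
      (Fin.cons p.1 (-((1 + p.1) • p.2)) : Fin (n + 1) → ℝ) :=
    cons_cont.comp (by fun_prop : Continuous fun p : ℝ × (Fin n → ℝ) =>
      (p.1, (-((1 + p.1) • p.2) : Fin n → ℝ)))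
  have hA : IsCompact (Icc (-1 : ℝ) 1 ×ˢ K) := isCompact_Icc.prod hc
  have e : sec K = ((fun p : ℝ × (Fin n → ℝ) =>
      (Fin.cons p.1 ((1 - p.1) • p.2) : Fin (n + 1) → ℝ)) '' (Icc (-1 : ℝ) 1 ×ˢ K)) ∩
      ((fun p : ℝ × (Fin n → ℝ) =>
      (Fin.cons p.1 (-((1 + p.1) • p.2)) : Fin (n + 1) → ℝ)) '' (Icc (-1 : ℝ) 1 ×ˢ K)) := by
    ext w
    constructor
    · rintro ⟨h0, ⟨a, ha, h1⟩, ⟨b, hb, h2⟩⟩
      rw [abs_le] at h0
      refine ⟨⟨(w 0, a), ⟨h0, ha⟩, ?_⟩, ⟨(w 0, b), ⟨h0, hb⟩, ?_⟩⟩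
      · show (Fin.cons (w 0) ((1 - w 0) • a) : Fin (n + 1) → ℝ) = w
        rw [show (1 - w 0) • a = Fin.tail w from h1]
        exact Fin.cons_self_tail w
      · show (Fin.cons (w 0) (-((1 + w 0) • b)) : Fin (n + 1) → ℝ) = w
        rw [show (1 + w 0) • b = -(Fin.tail w : Fin n → ℝ) from h2, neg_neg]
        exact Fin.cons_self_tail w
    · rintro ⟨⟨⟨s, a⟩, ⟨hs, ha⟩, h1⟩, ⟨⟨s', b⟩, ⟨hs', hb⟩, h2⟩⟩
      have e0 : w 0 = s := by rw [← h1]; rfl
      have e0' : w 0 = s' := by rw [← h2]; rfl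
      have t1 : (Fin.tail w : Fin n → ℝ) = (1 - s) • a := by rw [← h1]; rfl
      have t2 : (Fin.tail w : Fin n → ℝ) = -((1 + s') • b) := by rw [← h2]; rfl
      refine ⟨?_, ?_, ?_⟩
      · rw [e0, abs_le]; exact hs
      · rw [t1, e0]; exact ⟨a, ha, rfl⟩
      · rw [t2, neg_neg, e0']; exact ⟨b, hb, rfl⟩
  rw [e]
  exact (hA.image c1).inter_right (hA.image c2).isClosed

/-- the slice of the section body -/
theorem slice_sec {K : Set (Fin n → ℝ)} (s : ℝ) (y : Fin n → ℝ) :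
    (Fin.cons s y : Fin (n + 1) → ℝ) ∈ sec K ↔ |s| ≤ 1 ∧ y ∈ (1 - s) • K ∧ -y ∈ (1 + s) • K :=
  Iff.rfl

theorem slice_sym {K : Set (Fin n → ℝ)} (s : ℝ) :
    volume {y : Fin n → ℝ | (Fin.cons (-s) y : Fin (n + 1) → ℝ) ∈ sec K} =
      volume {y : Fin n → ℝ | (Fin.cons s y : Fin (n + 1) → ℝ) ∈ sec K} := by
  have e : {y : Fin n → ℝ | (Fin.cons (-s) y : Fin (n + 1) → ℝ) ∈ sec K} =
      -{y : Fin n → ℝ | (Fin.cons s y : Fin (n + 1) → ℝ) ∈ sec K} := by
    ext y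
    rw [Set.mem_neg, mem_ofPred_eq, mem_ofPred_eq, slice_sec, slice_sec, abs_neg, neg_neg,
      sub_neg_eq_add, ← sub_eq_add_neg]
    tauto
  rw [e, Measure.measure_neg]

/-- `|sec K| = 2 ∫_0^∞ |S_s| ds` -/
theorem volume_sec {K : Set (Fin n → ℝ)} (hc : IsCompact K) :
    volume (sec K) = 2 * ∫⁻ s in Ioi (0 : ℝ),
      volume {y : Fin n → ℝ | (Fin.cons s y : Fin (n + 1) → ℝ) ∈ sec K} := by
  set g : ℝ → ℝ≥0∞ := fun s => volume {y : Fin n → ℝ | (Fin.cons s y : Fin (n + 1) → ℝ) ∈ sec K}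
    with hg
  have hS := (sec_compact hc).isClosed.measurableSet
  have hgm : Measurable g := by
    have hm : MeasurableSet {p : ℝ × (Fin n → ℝ) |
        (Fin.cons p.1 p.2 : Fin (n + 1) → ℝ) ∈ sec K} := cons_cont.measurable hS
    exact measurable_measure_prodMk_left hm
  rw [volume_slices hS]
  have h1 : ∫⁻ s, g s = ∫⁻ s, ((Ioi (0 : ℝ)).indicator g s + (Ioi (0 : ℝ)).indicator g (-s)) := by
    refine lintegral_congr_ae ?_
    have : ∀ᵐ s : ℝ, s ≠ 0 := by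
      rw [ae_iff]; simp
    filter_upwards [this] with s hs
    rcases lt_or_gt_of_ne hs with h | h
    · rw [indicator_of_notMem (by simp; exact h.le), indicator_of_mem (by simp; exact h), zero_add]
      exact (slice_sym s).symm
    · rw [indicator_of_mem (by simp; exact h), indicator_of_notMem (by simp; exact h.le), add_zero]
  have h2 : Measurable ((Ioi (0 : ℝ)).indicator g) := hgm.indicator measurableSet_Ioi
  change ∫⁻ s, g s = 2 * ∫⁻ s in Ioi (0 : ℝ), g s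
  rw [h1, lintegral_add_left h2, lintegral_neg_eq_self, lintegral_indicator measurableSet_Ioi,
    two_mul]

/-- the slice as a convex body -/
def sl (K : ConvexBody (Fin n → ℝ)) (h0 : (0 : Fin n → ℝ) ∈ K) (s : ℝ) :
    ConvexBody (Fin n → ℝ) where
  carrier := (1 - s) • (K : Set (Fin n → ℝ)) ∩ -((1 + s) • (K : Set (Fin n → ℝ)))
  convex' := (K.convex.smul _).inter (K.convex.smul _).neg
  isCompact' := (K.isCompact.smul _).inter_right (K.isCompact.smul _).neg.isClosed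
  nonempty' := ⟨0, ⟨0, h0, smul_zero _⟩, by
    rw [Set.mem_neg, neg_zero]; exact ⟨0, h0, smul_zero _⟩⟩

theorem slice_eq (K : ConvexBody (Fin n → ℝ)) (h0 : (0 : Fin n → ℝ) ∈ K) {s : ℝ}
    (hs : |s| ≤ 1) :
    {y : Fin n → ℝ | (Fin.cons s y : Fin (n + 1) → ℝ) ∈ sec (K : Set (Fin n → ℝ))} =
      (sl K h0 s : Set (Fin n → ℝ)) := by
  ext y
  rw [mem_ofPred_eq, slice_sec]
  exact ⟨fun h => h.2, fun h => ⟨hs, h⟩⟩

theorem sl_le1 (K : ConvexBody (Fin n → ℝ)) (h0 : (0 : Fin n → ℝ) ∈ K) {s : ℝ} (hs : s ≤ 1) :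
    sl K h0 s ≤ (1 - s).toNNReal • K := by
  rw [← SetLike.coe_subset_coe, ConvexBody.coe_smul']
  change _ ⊆ ((1 - s).toNNReal : ℝ) • (K : Set (Fin n → ℝ))
  rw [Real.coe_toNNReal _ (by linarith)]
  exact inter_subset_left

theorem sl_le2 (K : ConvexBody (Fin n → ℝ)) (h0 : (0 : Fin n → ℝ) ∈ K) {s : ℝ} (hs : -1 ≤ s) :
    sl K h0 s ≤ (1 + s).toNNReal • ((-1 : ℝ) • K) := by
  rw [← SetLike.coe_subset_coe, ConvexBody.coe_smul', ConvexBody.coe_smul]
  change _ ⊆ ((1 + s).toNNReal : ℝ) • ((-1 : ℝ) • (K : Set (Fin n → ℝ)))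
  rw [Real.coe_toNNReal _ (by linarith)]
  rintro y ⟨-, hy⟩
  rw [Set.mem_neg] at hy
  obtain ⟨k, hk, h⟩ := hy
  refine ⟨-k, ⟨k, hk, by simp⟩, ?_⟩
  have h' : (1 + s) • k = -y := h
  show (1 + s) • (-k) = y
  rw [smul_neg, h', neg_neg]

theorem vl_mono {A B : ConvexBody (Fin n → ℝ)} (h : A ≤ B) : vl volume A ≤ vl volume B := by
  unfold vl
  exact ENNReal.toReal_mono B.isCompact.measure_lt_top.ne (measure_mono h)

theorem vl_sl_le (K : ConvexBody (Fin n → ℝ)) (h0 : (0 : Fin n → ℝ) ∈ K) {s : ℝ} (hs : s ≤ 1) :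
    vl volume (sl K h0 s) ≤ (1 - s) ^ n * vl volume K := by
  refine (vl_mono (sl_le1 K h0 hs)).trans (le_of_eq ?_)
  rw [vl_smul, Real.coe_toNNReal _ (by linarith)]
  simp

/-- the integral of a bounded slice function -/
theorem lint_le (K : ConvexBody (Fin n → ℝ)) (h0 : (0 : Fin n → ℝ) ∈ K) (f : ℝ → ℝ)
    (hf : Continuous f) {a b : ℝ} (hab : a ≤ b) (ha : 0 ≤ a) (hb : b ≤ 1)
    (h : ∀ s, a < s → s < b → vl volume (sl K h0 s) ≤ f s) :
    ∫⁻ s in Ioo a b, volume {y : Fin n → ℝ |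
      (Fin.cons s y : Fin (n + 1) → ℝ) ∈ sec (K : Set (Fin n → ℝ))} ≤
      ENNReal.ofReal (∫ s in a..b, f s) := by
  have h1 : ∫ s in a..b, f s = ∫ s in Ioo a b, f s := by
    rw [intervalIntegral.integral_of_le hab, integral_Ioc_eq_integral_Ioo]
  rw [h1, ofReal_integral_eq_lintegral_ofReal]
  · refine setLIntegral_mono' measurableSet_Ioo fun s hs => ?_
    rw [slice_eq K h0 (abs_le.2 ⟨by linarith [hs.1], by linarith [hs.2]⟩), vol_body]
    exact ENNReal.ofReal_le_ofReal (h s hs.1 hs.2)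
  · exact (hf.integrableOn_Icc (a := a) (b := b)).mono_set Ioo_subset_Icc_self
  · refine (ae_restrict_iff' measurableSet_Ioo).2 (ae_of_all _ fun s hs => ?_)
    exact (vl_nonneg volume _).trans (h s hs.1 hs.2)

theorem lint_split {g : ℝ → ℝ≥0∞} {m : ℝ} (hm0 : 0 ≤ m) (hm1 : m ≤ 1)
    (hg : ∀ s, 1 < s → g s = 0) :
    ∫⁻ s in Ioi (0 : ℝ), g s ≤ (∫⁻ s in Ioo 0 m, g s) + ∫⁻ s in Ioo m 1, g s := by
  have e1 : ∫⁻ s in Ioi (0 : ℝ), g s = ∫⁻ s, (Ioi (0 : ℝ)).indicator g s :=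
    (lintegral_indicator measurableSet_Ioi g).symm
  have e2 : ∫⁻ s in (Ioo 0 m ∪ Ioo m 1), g s = ∫⁻ s, (Ioo 0 m ∪ Ioo m 1).indicator g s :=
    (lintegral_indicator (measurableSet_Ioo.union measurableSet_Ioo) g).symm
  have e3 : ∫⁻ s, (Ioi (0 : ℝ)).indicator g s = ∫⁻ s, (Ioo 0 m ∪ Ioo m 1).indicator g s := by
    refine lintegral_congr_ae ?_
    have h1 : ∀ᵐ s : ℝ, s ≠ m := by rw [ae_iff]; simp
    have h2 : ∀ᵐ s : ℝ, s ≠ 1 := by rw [ae_iff]; simp
    filter_upwards [h1, h2] with s hs hs1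
    by_cases h0 : 0 < s
    · rw [indicator_of_mem (show s ∈ Ioi (0 : ℝ) from h0)]
      by_cases h3 : s < m
      · rw [indicator_of_mem (show s ∈ Ioo 0 m ∪ Ioo m 1 from Or.inl ⟨h0, h3⟩)]
      · by_cases h4 : s < 1
        · rw [indicator_of_mem (show s ∈ Ioo 0 m ∪ Ioo m 1 from
            Or.inr ⟨lt_of_le_of_ne (not_lt.1 h3) (Ne.symm hs), h4⟩)]
        · have h5 : 1 < s := lt_of_le_of_ne (not_lt.1 h4) (Ne.symm hs1)
          rw [hg s h5, indicator_of_notMem]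
          rintro (h6 | h6)
          · exact h3 h6.2
          · exact h4 h6.2
    · rw [indicator_of_notMem (show s ∉ Ioi (0 : ℝ) from h0), indicator_of_notMem]
      rintro (h6 | h6)
      · exact h0 h6.1
      · exact h0 (lt_of_le_of_lt hm0 h6.1)
  rw [e1, e3, ← e2]
  exact lintegral_union_le _ _ _

theorem int_cube (c m : ℝ) : ∫ s in m..1, (1 - s) ^ 3 * c = (1 - m) ^ 4 / 4 * c := by
  have h := intervalIntegral.integral_comp_sub_left (a := m) (b := 1)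
    (fun s : ℝ => s ^ 3 * c) (1 : ℝ)
  rw [h, intervalIntegral.integral_mul_const, integral_pow]
  norm_num

theorem cont_P3 (θ : ℝ) : Continuous (P3 θ) := by
  unfold P3 F3 Pool.Agent.Helper2.M3.H3
  fun_prop

/-- I (volume of the section body), from Y, X4, Z1, Z2 -/
theorem I_of
    (hY : ∀ K : ConvexBody (Fin 3 → ℝ), 0 < vl volume K → ∀ v : ℝ,
      T volume K K ((-1 : ℝ) • K) = v * vl volume K → 2 ≤ v → v ≤ 3 → ∀ a e s : ℝ, 0 < e →
      e ≤ a → 0 ≤ s → s ≤ 1 → ∀ S : ConvexBody (Fin 3 → ℝ), S ≤ (1 - s).toNNReal • K →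
      S ≤ (1 + s).toNNReal • ((-1 : ℝ) • K) →
      0 ≤ a ^ 3 - ((3 - v) * a * e * (a - e) + (v - 1) * e ^ 3) / (v + 1) →
      vl volume S * (a ^ 3 - ((3 - v) * a * e * (a - e) + (v - 1) * e ^ 3) / (v + 1)) ^ 2 ≤
      vl volume K * (a ^ 2 * (1 - s) - ((v - 1) / (v + 1) - s) * e ^ 2) ^ 3)
    (hX4 : ∀ K : ConvexBody (Fin 3 → ℝ), ∃ x, (-1 : ℝ) • K ≤ (3 : ℝ≥0) • K + sing x)
    (hZ1 : ∀ θ s : ℝ, 1 ≤ θ → θ ≤ 4 / 3 → 0 ≤ s → 2 * θ * s ≤ 1 →
      0 < H3 θ s ∧ F3 θ s ^ 3 ≤ P3 θ s * H3 θ s ^ 2)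
    (hZ2 : ∀ θ : ℝ, 1 ≤ θ →
      (∫ s in (0 : ℝ)..(1 / (2 * θ)), P3 θ s) + (1 - 1 / (2 * θ)) ^ 4 / 4 = 3 * θ / 16)
    {K : Set (Fin 3 → ℝ)} (h : OBody K) (KB : ConvexBody (Fin 3 → ℝ))
    (hKB : (KB : Set (Fin 3 → ℝ)) = K) {v : ℝ}
    (hT : T volume KB KB ((-1 : ℝ) • KB) = v * vl volume KB) :
    volume (sec K) ≤ ENNReal.ofReal (3 / (2 * (1 + v))) * volume K := by
  have h3 : finrank ℝ (Fin 3 → ℝ) = 3 := by simp
  have h0 : (0 : Fin 3 → ℝ) ∈ KB := by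
    have := interior_subset h.zero
    rw [← hKB] at this; exact this
  have hc : 0 < vl volume KB := by
    unfold vl
    rw [hKB]
    exact ENNReal.toReal_pos (by
      have := isOpen_interior.measure_pos volume ⟨0, h.zero⟩
      exact (this.trans_le (measure_mono interior_subset)).ne') h.comp.measure_lt_top.ne
  have hv0 : 0 ≤ v := by
    have := T_nonneg volume h3 KB KB ((-1 : ℝ) • KB)
    rw [hT] at this
    exact nonneg_of_mul_nonneg_left this hc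
  have hv3 : v ≤ 3 := by
    obtain ⟨x, hx⟩ := hX4 KB
    have e1 := T_mono1 volume h3 hx KB KB
    rw [T_add1 volume h3, T_smul1 volume h3, T_sing1 volume h3, add_zero,
      ← T_13 volume KB KB ((-1 : ℝ) • KB), hT, ← vl3 volume h3] at e1
    exact le_of_mul_le_mul_right e1 hc
  set c : ℝ := vl volume KB with hcdef
  have hg1 : ∀ s : ℝ, 1 < s → volume {y : Fin 3 → ℝ |
      (Fin.cons s y : Fin (3 + 1) → ℝ) ∈ sec (KB : Set (Fin 3 → ℝ))} = 0 := by
    intro s hs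
    have : {y : Fin 3 → ℝ | (Fin.cons s y : Fin (3 + 1) → ℝ) ∈ sec (KB : Set (Fin 3 → ℝ))} = ∅ := by
      ext y
      rw [mem_ofPred_eq, slice_sec]
      simp only [mem_empty_iff_false, iff_false]
      rintro ⟨h4, -⟩
      rw [abs_of_pos (by linarith)] at h4
      linarith
    rw [this, measure_empty]
  have hmain : ∀ m : ℝ, 0 ≤ m → m ≤ 1 → ∀ f : ℝ → ℝ, Continuous f →
      (∀ s, 0 < s → s < m → vl volume (sl KB h0 s) ≤ f s) →
      volume (sec K) ≤ ENNReal.ofReal (2 * ((∫ s in (0 : ℝ)..m, f s) + (1 - m) ^ 4 / 4 * c)) := by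
    intro m hm0 hm1 f hf hfs
    have hf0 : 0 ≤ ∫ s in (0 : ℝ)..m, f s := by
      rw [intervalIntegral.integral_of_le hm0, integral_Ioc_eq_integral_Ioo]
      exact setIntegral_nonneg measurableSet_Ioo fun s hs =>
        (vl_nonneg volume _).trans (hfs s hs.1 hs.2)
    rw [← hKB, volume_sec KB.isCompact]
    have k1 := lint_le KB h0 f hf hm0 le_rfl hm1 hfs
    have k2 := lint_le KB h0 (fun s => (1 - s) ^ 3 * c) (by fun_prop) hm1 hm0 le_rfl
      (fun s _ hs => vl_sl_le KB h0 hs.le)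
    rw [int_cube] at k2
    have h4 : 0 ≤ (1 - m) ^ 4 / 4 * c := by positivity
    rw [ENNReal.ofReal_mul (by norm_num), ENNReal.ofReal_add hf0 h4]
    have h5 : ENNReal.ofReal 2 = 2 := by simp
    rw [h5]
    gcongr
    exact (lint_split hm0 hm1 hg1).trans (add_le_add k1 k2)
  have hvol : ENNReal.ofReal (3 / (2 * (1 + v))) * volume K =
      ENNReal.ofReal (3 / (2 * (1 + v)) * c) := by
    rw [← hKB, vol_body, ← ENNReal.ofReal_mul (by positivity)]
  rw [hvol]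
  rcases lt_or_ge v 2 with hv2 | hv2
  · refine (hmain 0 le_rfl zero_le_one (fun _ => 0) continuous_const
      (fun s hs hs' => absurd (hs.trans hs') (lt_irrefl _))).trans ?_
    refine ENNReal.ofReal_le_ofReal ?_
    rw [intervalIntegral.integral_same, zero_add, sub_zero, one_pow]
    have h5 : 1 / 2 ≤ 3 / (2 * (1 + v)) := by
      rw [div_le_div_iff₀ (by norm_num) (by positivity)]
      linarith
    nlinarith
  · set θ : ℝ := 4 / (1 + v) with hθ
    have hv1 : 0 < 1 + v := by linarith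
    have hθ1 : 1 ≤ θ := by rw [hθ, le_div_iff₀ hv1]; linarith
    have hθ2 : θ ≤ 4 / 3 := by
      rw [hθ, div_le_div_iff₀ hv1 (by norm_num)]; linarith
    have hθ0 : 0 < θ := by linarith
    have hm0 : 0 ≤ 1 / (2 * θ) := by positivity
    have hm1 : 1 / (2 * θ) ≤ 1 := by
      rw [div_le_one (by positivity)]; linarith
    have hbound : ∀ s, 0 < s → s < 1 / (2 * θ) → vl volume (sl KB h0 s) ≤ P3 θ s * c := by
      intro s hs0 hs1
      have hs2 : 2 * θ * s < 1 := by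
        rw [lt_div_iff₀ (by positivity)] at hs1; linarith
      have hs3 : s < 1 := lt_of_lt_of_le hs1 hm1
      obtain ⟨z1, z2⟩ := hZ1 θ s hθ1 hθ2 hs0.le hs2.le
      have eH : (1 - s) ^ 3 - ((3 - v) * (1 - s) * (1 - 2 * θ * s) * ((1 - s) - (1 - 2 * θ * s)) +
          (v - 1) * (1 - 2 * θ * s) ^ 3) / (v + 1) = H3 θ s := by
        unfold Pool.Agent.Helper2.M3.H3
        have e1 : (3 - v) / (v + 1) = θ - 1 := by rw [hθ]; field_simp; ring
        have e2 : (v - 1) / (v + 1) = 1 - θ / 2 := by rw [hθ]; field_simp; ring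
        rw [← e1, ← e2]
        have : v + 1 ≠ 0 := by linarith
        have e3 : (1 - s) - (1 - 2 * θ * s) = (2 * θ - 1) * s := by ring
        rw [e3]
        ring
      have eF : (1 - s) ^ 2 * (1 - s) - ((v - 1) / (v + 1) - s) * (1 - 2 * θ * s) ^ 2 =
          F3 θ s := by
        unfold F3
        have e2 : (v - 1) / (v + 1) = 1 - θ / 2 := by rw [hθ]; field_simp; ring
        rw [e2]; ring
      have hy := hY KB hc v hT hv2 hv3 (1 - s) (1 - 2 * θ * s) s (by linarith) (by nlinarith)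
        hs0.le hs3.le (sl KB h0 s) (sl_le1 KB h0 hs3.le) (sl_le2 KB h0 (by linarith))
        (by rw [eH]; exact z1.le)
      rw [eH, eF] at hy
      have h5 : vl volume (sl KB h0 s) * H3 θ s ^ 2 ≤ (P3 θ s * c) * H3 θ s ^ 2 := by
        calc _ ≤ c * F3 θ s ^ 3 := hy
          _ ≤ c * (P3 θ s * H3 θ s ^ 2) := by gcongr
          _ = _ := by ring
      exact le_of_mul_le_mul_right h5 (by positivity)
    have hint : ∫ s in (0 : ℝ)..(1 / (2 * θ)), P3 θ s * c =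
        (∫ s in (0 : ℝ)..(1 / (2 * θ)), P3 θ s) * c := intervalIntegral.integral_mul_const _ _
    have hz := hZ2 θ hθ1
    refine (hmain (1 / (2 * θ)) hm0 hm1 (fun s => P3 θ s * c) ((cont_P3 θ).mul continuous_const)
      hbound).trans ?_
    refine ENNReal.ofReal_le_ofReal (le_of_eq ?_)
    rw [hint]
    have e : 2 * ((∫ s in (0 : ℝ)..(1 / (2 * θ)), P3 θ s) * c +
        (1 - 1 / (2 * θ)) ^ 4 / 4 * c) = 2 * (3 * θ / 16) * c := by
      rw [← hz]; ring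
    rw [e, hθ]
    field_simp
    norm_num

end Pool.Agent.Helper17.MB

end
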